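import Mathlib
import Pool.Agent.helper60.MW.SpecC

set_option autoImplicit false

namespace Pool.Agent.MW

open MeasureTheory Set Pool.Agent.helper17.Worm

/-- the complex number of a lattice point -/
noncomputable def CNW_cz (p : ℤ × ℤ) : ℂ := ⟨(p.1 : ℝ), (p.2 : ℝ)⟩

lemma CNW_sq (p : ℤ × ℤ) : ‖CNW_cz p‖ ^ 2 = (p.1 : ℝ) ^ 2 + (p.2 : ℝ) ^ 2 := by
  rw [Complex.sq_norm, Complex.normSq_apply]
  simp only [CNW_cz]
  ring

lemma CNW_zero : CNW_cz (0, 0) = 0 := by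
  apply Complex.ext <;> simp [CNW_cz]

lemma CNW_path {n : ℕ} {P : Fin (n + 1) → ℤ × ℤ} (h : PathP n P) (i : Fin (n + 1)) :
    ‖CNW_cz (P i)‖ ≤ ((i : ℕ) : ℝ) * ((n : ℝ) + 2) := by
  induction i using Fin.induction with
  | zero => rw [h.1, CNW_zero]; simp
  | succ i ih =>
    have h2 := h.2 i
    have h3 : ‖CNW_cz (P i.succ) - CNW_cz (P i.castSucc)‖ ≤ (n : ℝ) + 2 := by
      apply le_of_sq_le_sq _ (by positivity)
      rw [Complex.sq_norm, Complex.normSq_apply]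
      simp only [CNW_cz, Complex.sub_re, Complex.sub_im]
      have h4 : ((((P i.succ).1 - (P i.castSucc).1) ^ 2 +
        ((P i.succ).2 - (P i.castSucc).2) ^ 2 : ℤ) : ℝ) ≤ (((n : ℤ) + 2) ^ 2 : ℤ) := by exact_mod_cast h2
      push_cast at h4
      nlinarith
    have h5 : ‖CNW_cz (P i.succ)‖ ≤ ‖CNW_cz (P i.succ) - CNW_cz (P i.castSucc)‖ + ‖CNW_cz (P i.castSucc)‖ := by
      have := norm_add_le (CNW_cz (P i.succ) - CNW_cz (P i.castSucc)) (CNW_cz (P i.castSucc))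
      simpa using this
    rw [Fin.val_succ]
    push_cast
    have h6 : ((i.castSucc : ℕ) : ℝ) = ((i : ℕ) : ℝ) := by simp
    rw [h6] at ih
    linarith

lemma CNW_rot {n : ℕ} {α : ℤ × ℤ} (h : Rot n α) : ‖CNW_cz α‖ ≤ (n : ℝ) ^ 2 + 1 := by
  apply le_of_sq_le_sq _ (by positivity)
  rw [CNW_sq]
  have h4 : ((α.1 ^ 2 + α.2 ^ 2 : ℤ) : ℝ) ≤ (((n : ℤ) ^ 2 + 1) ^ 2 : ℤ) := by exact_mod_cast h.2
  push_cast at h4
  exact h4

lemma CNW_mul_re (a p : ℤ × ℤ) : ((a.1 * p.1 - a.2 * p.2 : ℤ) : ℝ) = (CNW_cz a * CNW_cz p).re := by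
  simp [CNW_cz, Complex.mul_re]

lemma CNW_mul_im (a p : ℤ × ℤ) : ((a.1 * p.2 + a.2 * p.1 : ℤ) : ℝ) = (CNW_cz a * CNW_cz p).im := by
  simp [CNW_cz, Complex.mul_im]

/-- the main bound -/
lemma CNW_bd {n : ℕ} (hn : 8 ≤ n) {P : Fin (n + 1) → ℤ × ℤ} (h : PathP n P) {α : ℤ × ℤ} (hα : Rot n α)
    (i : Fin (n + 1)) : ‖CNW_cz α * CNW_cz (P i)‖ ≤ 2 * (n : ℝ) ^ 4 := by
  rw [norm_mul]
  have h1 := CNW_rot hα
  have h2 := CNW_path h i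
  have h3 : ((i : ℕ) : ℝ) ≤ (n : ℝ) := by
    have := i.is_lt
    exact_mod_cast (by omega : (i : ℕ) ≤ n)
  have hn' : (8 : ℝ) ≤ (n : ℝ) := by exact_mod_cast hn
  have h4 : ‖CNW_cz (P i)‖ ≤ (n : ℝ) * ((n : ℝ) + 2) := h2.trans (by nlinarith)
  have h5 : ‖CNW_cz α‖ * ‖CNW_cz (P i)‖ ≤ ((n : ℝ) ^ 2 + 1) * ((n : ℝ) * ((n : ℝ) + 2)) :=
    mul_le_mul h1 h4 (norm_nonneg _) (by positivity)
  refine h5.trans ?_
  have h6 : (n : ℝ) ^ 2 + 1 ≤ (n : ℝ) ^ 2 * (5 / 4) := by nlinarith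
  have h7 : (n : ℝ) * ((n : ℝ) + 2) ≤ (n : ℝ) ^ 2 * (5 / 4) := by nlinarith
  calc ((n : ℝ) ^ 2 + 1) * ((n : ℝ) * ((n : ℝ) + 2))
      ≤ ((n : ℝ) ^ 2 * (5 / 4)) * ((n : ℝ) ^ 2 * (5 / 4)) := mul_le_mul h6 h7 (by positivity) (by positivity)
    _ = (25 / 16) * (n : ℝ) ^ 4 := by ring
    _ ≤ 2 * (n : ℝ) ^ 4 := by
        have : (0 : ℝ) ≤ (n : ℝ) ^ 4 := by positivity
        linarith

/-- one coordinate -/
lemma CNW_one (m M : ℕ) (N c u : ℤ) (hm : 1 ≤ m) (hM : 1 ≤ M) (hN : 0 < N) :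
    ∃ j : ℤ, ∀ s : ℤ, |s * N - c| ≤ (4 * m) * N → j * M + u ≤ s ∧ s < j * M + u + M + (16 * m : ℕ) := by
  refine ⟨(c / N - 8 * m - u) / M, fun s hs => ?_⟩
  have hMz : (0 : ℤ) < (M : ℤ) := by exact_mod_cast hM
  have hmz : (1 : ℤ) ≤ (m : ℤ) := by exact_mod_cast hm
  have e1 := Int.emod_add_mul_ediv c N
  have e2 := Int.emod_nonneg c hN.ne'
  have e3 := Int.emod_lt_of_pos c hN
  have f1 := Int.emod_add_mul_ediv (c / N - 8 * m - u) M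
  have f2 := Int.emod_nonneg (c / N - 8 * m - u) hMz.ne'
  have f3 := Int.emod_lt_of_pos (c / N - 8 * m - u) hMz
  rw [abs_le] at hs
  set q := c / N with hq
  set t := (q - 8 * m - u) / M with ht
  have g1 : q - 4 * m ≤ s := by
    by_contra hcon
    push Not at hcon
    have : s + 1 ≤ q - 4 * m := by omega
    nlinarith [mul_le_mul_of_nonneg_right this hN.le]
  have g2 : s ≤ q + 4 * m + 1 := by
    by_contra hcon
    push Not at hcon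
    have : q + 4 * m + 1 ≤ s := by omega
    nlinarith [mul_le_mul_of_nonneg_right this hN.le]
  push_cast
  constructor
  · nlinarith
  · nlinarith

theorem CNW : CNW_stmt := by
  intro m n M P α γ u hm hn hM hP hα
  have hn8 : 8 ≤ n := by omega
  have hN : (0 : ℤ) < (n : ℤ) ^ 4 := by
    have : (0 : ℤ) < (n : ℤ) := by exact_mod_cast (by omega : 0 < n)
    positivity
  obtain ⟨j1, h1⟩ := CNW_one m M ((n : ℤ) ^ 4) (m * ((n : ℤ) ^ 2 * γ.1)) u.1 hm hM hN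
  obtain ⟨j2, h2⟩ := CNW_one m M ((n : ℤ) ^ 4) (m * ((n : ℤ) ^ 2 * γ.2)) u.2 hm hM hN
  have hmz : (1 : ℤ) ≤ (m : ℤ) := by exact_mod_cast hm
  refine ⟨(j1, j2), fun i s hs => ⟨h1 s.1 ?_, h2 s.2 ?_⟩⟩
  · have hb : |((α.1 * (P i).1 - α.2 * (P i).2 : ℤ) : ℝ)| ≤ 2 * (n : ℝ) ^ 4 := by
      rw [CNW_mul_re]
      exact (Complex.abs_re_le_norm _).trans (CNW_bd hn8 hP hα i)
    have hb' : |α.1 * (P i).1 - α.2 * (P i).2| ≤ 2 * (n : ℤ) ^ 4 := by exact_mod_cast hb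
    have hs1 := hs.1
    unfold ps1 at hs1
    rw [abs_le] at hs1 hb' ⊢
    generalize α.1 * (P i).1 - α.2 * (P i).2 = w at hs1 hb'
    constructor <;> nlinarith
  · have hb : |((α.1 * (P i).2 + α.2 * (P i).1 : ℤ) : ℝ)| ≤ 2 * (n : ℝ) ^ 4 := by
      rw [CNW_mul_im]
      exact (Complex.abs_im_le_norm _).trans (CNW_bd hn8 hP hα i)
    have hb' : |α.1 * (P i).2 + α.2 * (P i).1| ≤ 2 * (n : ℤ) ^ 4 := by exact_mod_cast hb
    have hs1 := hs.2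
    unfold ps2 at hs1
    rw [abs_le] at hs1 hb' ⊢
    generalize α.1 * (P i).2 + α.2 * (P i).1 = w at hs1 hb'
    constructor <;> nlinarith

end Pool.Agent.MW
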