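import Mathlib
import Pool.Agent.helper60.MW.SpecC

set_option autoImplicit false

namespace Pool.Agent.MW

open MeasureTheory Set Pool.Agent.helper17.Worm

lemma HRX_sum (b0 : ℕ) (c : ℝ) (hc : 0 < c) : ∀ B : ℕ, b0 ≤ B →
    Real.log ((B : ℝ) + c) - Real.log ((b0 : ℝ) + c) ≤ ∑ b ∈ Finset.Ico b0 B, 1 / ((b : ℝ) + c) := by
  intro B hB
  induction B, hB using Nat.le_induction with
  | base => simp
  | succ B hB ih =>
    rw [Finset.sum_Ico_succ_top hB]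
    have hp : (0 : ℝ) < (B : ℝ) + c := by positivity
    have h1 : Real.log (((B + 1 : ℕ) : ℝ) + c) - Real.log ((B : ℝ) + c) ≤ 1 / ((B : ℝ) + c) := by
      have hp2 : (0 : ℝ) < ((B + 1 : ℕ) : ℝ) + c := by positivity
      rw [← Real.log_div hp2.ne' hp.ne']
      have h2 := Real.log_le_sub_one_of_pos (div_pos hp2 hp)
      have h3 : (((B + 1 : ℕ) : ℝ) + c) / ((B : ℝ) + c) - 1 = 1 / ((B : ℝ) + c) := by
        field_simp
        push_cast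
        ring
      linarith
    linarith

lemma HRX_lt (n : ℕ) : n < 2 ^ n := Nat.lt_two_pow_self

lemma HRX_le (k b : ℕ) (hb : k + 8 ≤ b) : k + 8 ≤ 2 ^ b := by
  have h := HRX_lt b
  generalize 2 ^ b = X at h ⊢
  omega

lemma HRX_num (k a b : ℕ) (ha : 6 * k + 54 ≤ a) (hb : a + 2 ≤ b) :
    2 * ((2 : ℝ) ^ a + (((k + 8 : ℕ) : ℝ) + (5 * (k : ℝ) + 46))) ≤ ((2 ^ b : ℕ) : ℝ) := by
  have h1 : (2 : ℝ) ^ (a + 2) ≤ (2 : ℝ) ^ b := pow_le_pow_right₀ (by norm_num) hb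
  rw [pow_add] at h1
  have h2 : ((a : ℕ) : ℝ) < ((2 ^ a : ℕ) : ℝ) := Nat.cast_lt.mpr (HRX_lt a)
  rw [Nat.cast_pow, Nat.cast_ofNat] at h2
  have h3 : ((6 * k + 54 : ℕ) : ℝ) ≤ ((a : ℕ) : ℝ) := Nat.cast_le.mpr ha
  rw [Nat.cast_pow, Nat.cast_ofNat]
  push_cast at h3 ⊢
  linarith

/-- the same with opaque parameters -/
lemma HRX_aux (b0 B T : ℕ) (c A : ℝ) (hc : 0 < c) (hA : 0 < A) (hB : B = 2 ^ T) (hb : b0 ≤ B)
    (hT : 2 * (A + ((b0 : ℝ) + c)) ≤ (T : ℝ)) (e : ℕ → ℝ) (he : ∀ b, 0 ≤ e b)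
    (hsum : ∑ b ∈ Finset.range B, e b ≤ 1) :
    ∃ b : ℕ, b0 ≤ b ∧ b < B ∧ A * ((b : ℝ) + c) * e b ≤ 1 := by
  by_contra hcon
  push Not at hcon
  have hlog := HRX_sum b0 c hc B hb
  have hsub : ∑ b ∈ Finset.Ico b0 B, e b ≤ ∑ b ∈ Finset.range B, e b := by
    apply Finset.sum_le_sum_of_subset_of_nonneg
    · intro b hb
      rw [Finset.mem_Ico] at hb
      exact Finset.mem_range.mpr hb.2
    · intro b _ _
      exact he b
  have hcmp : ∑ b ∈ Finset.Ico b0 B, 1 / ((b : ℝ) + c) ≤ A * ∑ b ∈ Finset.Ico b0 B, e b := by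
    rw [Finset.mul_sum]
    apply Finset.sum_le_sum
    intro b hb
    rw [Finset.mem_Ico] at hb
    have h1 := hcon b hb.1 hb.2
    have h2 : (0 : ℝ) < (b : ℝ) + c := by positivity
    rw [div_le_iff₀ h2]
    nlinarith
  have hcmp2 : A * ∑ b ∈ Finset.Ico b0 B, e b ≤ A := by
    have := hsub.trans hsum
    nlinarith
  have hl1 : (T : ℝ) * Real.log 2 ≤ Real.log ((B : ℝ) + c) := by
    have h1 : Real.log ((2 : ℝ) ^ T) ≤ Real.log ((B : ℝ) + c) := by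
      apply Real.log_le_log (by positivity)
      rw [hB, Nat.cast_pow, Nat.cast_ofNat]
      linarith
    rwa [Real.log_pow] at h1
  have hl2 : Real.log ((b0 : ℝ) + c) ≤ ((b0 : ℝ) + c) - 1 := by
    have h1 : (0 : ℝ) < (b0 : ℝ) + c := by positivity
    exact Real.log_le_sub_one_of_pos h1
  have h2 : (0.6931471803 : ℝ) < Real.log 2 := Real.log_two_gt_d9
  have h3 : (0 : ℝ) ≤ (T : ℝ) := Nat.cast_nonneg T
  nlinarith

lemma HRX_main (k a b : ℕ) (hak : 6 * k + 54 ≤ a) (hab : a + 2 ≤ b) (e : ℕ → ℝ) (he : ∀ b, 0 ≤ e b)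
    (hsum : ∑ i ∈ Finset.range (2 ^ (2 ^ b)), e i ≤ 1) :
    ∃ i : ℕ, k + 8 ≤ i ∧ i < 2 ^ (2 ^ b) ∧ 2 ^ a * ((i : ℝ) + (5 * k + 46)) * e i ≤ 1 :=
  HRX_aux (k + 8) (2 ^ (2 ^ b)) (2 ^ b) (5 * (k : ℝ) + 46) (2 ^ a) (by positivity) (pow_pos two_pos _) rfl
    (HRX_le k (2 ^ b) (HRX_le k b (by omega))) (HRX_num k a b hak hab) e he hsum

theorem HRX : HRX_stmt := fun k e he hsum =>
  HRX_main k (9 * k + 81) (10 * k + 100) (by omega) (by omega) e he hsum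

end Pool.Agent.MW
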