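import Mathlib
import Pool.Agent.helper60.MW.SpecC
import Pool.Agent.helper5.MW.CNW

set_option autoImplicit false

namespace Pool.Agent.MW

open MeasureTheory Set Pool.Agent.helper17.Worm

/-- rounding of a complex number -/
noncomputable def LFC_rd (z : ℂ) : ℤ × ℤ := (round z.re, round z.im)

lemma LFC_rd_zero : LFC_rd 0 = (0, 0) := by simp [LFC_rd]

lemma LFC_rd_near (z : ℂ) : ‖CNW_cz (LFC_rd z) - z‖ ≤ 1 := by
  apply le_of_sq_le_sq _ (by norm_num)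
  rw [Complex.sq_norm, Complex.normSq_apply]
  simp only [CNW_cz, LFC_rd, Complex.sub_re, Complex.sub_im]
  have h1 := abs_sub_round z.re
  have h2 := abs_sub_round z.im
  rw [abs_le] at h1 h2
  nlinarith

lemma LFC_measurable (m : ℕ) (s : ℤ × ℤ) : MeasurableSet (csq m s) :=
  (measurableSet_Icc.preimage Complex.measurable_re).inter
    (measurableSet_Icc.preimage Complex.measurable_im)

lemma LFC_mem (m : ℕ) (hm : 1 ≤ m) (w : ℂ) : w ∈ csq m (⌊m * w.re⌋, ⌊m * w.im⌋) := by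
  have hm' : (0 : ℝ) < (m : ℝ) := by exact_mod_cast hm
  rw [csq, Complex.mem_reProdIm, mem_Icc, mem_Icc]
  refine ⟨⟨?_, ?_⟩, ⟨?_, ?_⟩⟩
  · rw [div_le_iff₀ hm', mul_comm w.re]
    exact Int.floor_le ((m : ℝ) * w.re)
  · rw [le_div_iff₀ hm', mul_comm]
    exact (Int.lt_floor_add_one ((m : ℝ) * w.re)).le
  · rw [div_le_iff₀ hm', mul_comm w.im]
    exact Int.floor_le ((m : ℝ) * w.im)
  · rw [le_div_iff₀ hm', mul_comm]
    exact (Int.lt_floor_add_one ((m : ℝ) * w.im)).le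

/-- one coordinate of the nearness -/
lemma LFC_near1 (m n : ℕ) (hm : 1 ≤ m) (hn : 1 ≤ n) (x z : ℝ) (p : ℤ) (hz : z * (n : ℝ) ^ 4 = (p : ℝ))
    (h : |x - z| ≤ 1 / m) : |⌊m * x⌋ * (n : ℤ) ^ 4 - m * p| ≤ 2 * (n : ℤ) ^ 4 := by
  have hm' : (0 : ℝ) < (m : ℝ) := by exact_mod_cast hm
  have hn' : (0 : ℝ) < (n : ℝ) := by exact_mod_cast hn
  have hn4 : (0 : ℝ) < (n : ℝ) ^ 4 := by positivity
  have h1 := Int.floor_le ((m : ℝ) * x)
  have h2 := Int.lt_floor_add_one ((m : ℝ) * x)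
  have h3 : |(m : ℝ) * x - m * z| ≤ 1 := by
    rw [← mul_sub, abs_mul, abs_of_pos hm']
    calc (m : ℝ) * |x - z| ≤ m * (1 / m) := mul_le_mul_of_nonneg_left h hm'.le
      _ = 1 := by field_simp
  rw [abs_le] at h3
  have h4 : |((⌊m * x⌋ : ℤ) : ℝ) * (n : ℝ) ^ 4 - m * (p : ℝ)| ≤ 2 * (n : ℝ) ^ 4 := by
    rw [← hz, show ((⌊m * x⌋ : ℤ) : ℝ) * (n : ℝ) ^ 4 - m * (z * (n : ℝ) ^ 4) =
      (((⌊m * x⌋ : ℤ) : ℝ) - m * z) * (n : ℝ) ^ 4 by ring, abs_mul, abs_of_pos hn4]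
    apply mul_le_mul_of_nonneg_right _ hn4.le
    rw [abs_le]
    constructor <;> linarith
  exact_mod_cast h4

/-- the analytic part -/
lemma LFC_est (m n : ℕ) (hm : 1 ≤ m) (hn : 8 * m ≤ n) (a α P v F c : ℂ) (ha : ‖a‖ = 1)
    (haα : ‖a - α / (n : ℂ) ^ 2‖ ≤ 1 / (n : ℝ) ^ 2) (hF : ‖F‖ ≤ 1) (hP : ‖P - (n : ℂ) ^ 2 * F‖ ≤ 1)
    (hv : ‖v - F‖ ≤ 1 / n) :
    ‖(a * v + c) - ((α / (n : ℂ) ^ 2) * (P / (n : ℂ) ^ 2) + c)‖ ≤ 1 / m := by
  have hm' : (1 : ℝ) ≤ (m : ℝ) := by exact_mod_cast hm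
  have hn' : 8 * (m : ℝ) ≤ (n : ℝ) := by exact_mod_cast hn
  have hn0 : (0 : ℝ) < (n : ℝ) := by linarith
  have hnc : (n : ℂ) ≠ 0 := by
    have : n ≠ 0 := by omega
    exact_mod_cast this
  have hnorm : ‖((n : ℂ) ^ 2)‖ = (n : ℝ) ^ 2 := by
    rw [norm_pow, Complex.norm_natCast]
  have e : (a * v + c) - ((α / (n : ℂ) ^ 2) * (P / (n : ℂ) ^ 2) + c) =
      a * (v - F) + a * (-((P - (n : ℂ) ^ 2 * F) / (n : ℂ) ^ 2)) + (a - α / (n : ℂ) ^ 2) * (P / (n : ℂ) ^ 2) := by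
    field_simp
    ring
  rw [e]
  have h1 : ‖a * (v - F)‖ ≤ 1 / n := by rw [norm_mul, ha, one_mul]; exact hv
  have h2 : ‖a * (-((P - (n : ℂ) ^ 2 * F) / (n : ℂ) ^ 2))‖ ≤ 1 / (n : ℝ) ^ 2 := by
    rw [norm_mul, ha, one_mul, norm_neg, norm_div, hnorm]
    exact div_le_div_of_nonneg_right hP (by positivity)
  have h3 : ‖P‖ ≤ (n : ℝ) ^ 2 + 1 := by
    have : ‖P‖ ≤ ‖P - (n : ℂ) ^ 2 * F‖ + ‖(n : ℂ) ^ 2 * F‖ := by
      have := norm_add_le (P - (n : ℂ) ^ 2 * F) ((n : ℂ) ^ 2 * F)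
      simpa using this
    rw [norm_mul, hnorm] at this
    nlinarith [sq_nonneg (n : ℝ)]
  have h4 : ‖(a - α / (n : ℂ) ^ 2) * (P / (n : ℂ) ^ 2)‖ ≤ 2 / (n : ℝ) ^ 2 := by
    rw [norm_mul, norm_div, hnorm]
    have h5 : ‖P‖ / (n : ℝ) ^ 2 ≤ 2 := by
      rw [div_le_iff₀ (by positivity)]
      nlinarith
    calc ‖a - α / (n : ℂ) ^ 2‖ * (‖P‖ / (n : ℝ) ^ 2) ≤ (1 / (n : ℝ) ^ 2) * 2 :=
          mul_le_mul haα h5 (by positivity) (by positivity)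
      _ = 2 / (n : ℝ) ^ 2 := by ring
  have h6 : ‖a * (v - F) + a * (-((P - (n : ℂ) ^ 2 * F) / (n : ℂ) ^ 2)) +
      (a - α / (n : ℂ) ^ 2) * (P / (n : ℂ) ^ 2)‖ ≤ 1 / n + 1 / (n : ℝ) ^ 2 + 2 / (n : ℝ) ^ 2 :=
    (norm_add_le _ _).trans (add_le_add ((norm_add_le _ _).trans (add_le_add h1 h2)) h4)
  refine h6.trans ?_
  have h7 : 1 / (n : ℝ) + 1 / (n : ℝ) ^ 2 + 2 / (n : ℝ) ^ 2 = ((n : ℝ) + 3) / (n : ℝ) ^ 2 := by
    field_simp
    ring
  rw [h7, div_le_div_iff₀ (by positivity) (by linarith)]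
  nlinarith

theorem LFC : LFC_stmt := by
  intro m n S hm hn hS
  refine ⟨(Finset.measurableSet_biUnion S (fun s _ => LFC_measurable m s)).nullMeasurableSet, ?_⟩
  rintro w ⟨f, hf, rfl⟩
  have hn1 : 1 ≤ n := by omega
  have hn0 : (0 : ℝ) < (n : ℝ) := by exact_mod_cast hn1
  have hn8 : (8 : ℝ) ≤ (n : ℝ) := by exact_mod_cast (by omega : 8 ≤ n)
  have hnc : (n : ℂ) ≠ 0 := by
    have : n ≠ 0 := by omega
    exact_mod_cast this
  have hnorm : ‖((n : ℂ) ^ 2)‖ = (n : ℝ) ^ 2 := by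
    rw [norm_pow, Complex.norm_natCast]
  have hlip : ∀ x ∈ Icc (0 : ℝ) 1, ∀ y ∈ Icc (0 : ℝ) 1, ‖f x - f y‖ ≤ |x - y| := by
    intro x hx y hy
    have h1 := hf.dist_le_mul x hx y hy
    rwa [NNReal.coe_one, one_mul, dist_eq_norm, Real.dist_eq] at h1
  have hmem : ∀ i : Fin (n + 1), ((i : ℕ) : ℝ) / n ∈ Icc (0 : ℝ) 1 := by
    intro i
    have := i.is_lt
    have h1 : ((i : ℕ) : ℝ) ≤ (n : ℝ) := by exact_mod_cast (by omega : (i : ℕ) ≤ n)
    exact ⟨by positivity, by rw [div_le_one hn0]; exact h1⟩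
  have h0mem : (0 : ℝ) ∈ Icc (0 : ℝ) 1 := ⟨le_refl _, zero_le_one⟩
  set F : Fin (n + 1) → ℂ := fun i => f (((i : ℕ) : ℝ) / n) - f 0 with hFdef
  set P : Fin (n + 1) → ℤ × ℤ := fun i => LFC_rd ((n : ℂ) ^ 2 * F i) with hPdef
  have hFn : ∀ i, ‖F i‖ ≤ 1 := by
    intro i
    refine (hlip _ (hmem i) 0 h0mem).trans ?_
    rw [sub_zero, abs_of_nonneg (hmem i).1]
    exact (hmem i).2
  have hPn : ∀ i, ‖CNW_cz (P i) - (n : ℂ) ^ 2 * F i‖ ≤ 1 := fun i => LFC_rd_near _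
  have hPath : PathP n P := by
    constructor
    · have : F 0 = 0 := by simp [hFdef]
      show LFC_rd ((n : ℂ) ^ 2 * F 0) = (0, 0)
      rw [this, mul_zero, LFC_rd_zero]
    · intro i
      have h1 : ‖F i.succ - F i.castSucc‖ ≤ 1 / n := by
        have h2 : F i.succ - F i.castSucc = f (((i.succ : ℕ) : ℝ) / n) - f (((i.castSucc : ℕ) : ℝ) / n) := by
          simp [hFdef]
        rw [h2]
        refine (hlip _ (hmem _) _ (hmem _)).trans ?_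
        rw [← sub_div, Fin.val_succ, Fin.val_castSucc]
        have h3 : (((i : ℕ) + 1 : ℕ) : ℝ) - ((i : ℕ) : ℝ) = 1 := by push_cast; ring
        rw [h3, abs_of_pos (by positivity)]
      have h4 : ‖CNW_cz (P i.succ) - CNW_cz (P i.castSucc)‖ ≤ (n : ℝ) + 2 := by
        have e : CNW_cz (P i.succ) - CNW_cz (P i.castSucc) =
            (CNW_cz (P i.succ) - (n : ℂ) ^ 2 * F i.succ) - (CNW_cz (P i.castSucc) - (n : ℂ) ^ 2 * F i.castSucc)
            + (n : ℂ) ^ 2 * (F i.succ - F i.castSucc) := by ring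
        rw [e]
        have h5 : ‖(n : ℂ) ^ 2 * (F i.succ - F i.castSucc)‖ ≤ n := by
          rw [norm_mul, hnorm]
          calc (n : ℝ) ^ 2 * ‖F i.succ - F i.castSucc‖ ≤ (n : ℝ) ^ 2 * (1 / n) :=
                mul_le_mul_of_nonneg_left h1 (by positivity)
            _ = n := by field_simp
        have h6 := norm_add_le ((CNW_cz (P i.succ) - (n : ℂ) ^ 2 * F i.succ) -
          (CNW_cz (P i.castSucc) - (n : ℂ) ^ 2 * F i.castSucc)) ((n : ℂ) ^ 2 * (F i.succ - F i.castSucc))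
        have h7 := norm_sub_le (CNW_cz (P i.succ) - (n : ℂ) ^ 2 * F i.succ)
          (CNW_cz (P i.castSucc) - (n : ℂ) ^ 2 * F i.castSucc)
        linarith [hPn i.succ, hPn i.castSucc]
      have h8 : ‖CNW_cz (P i.succ) - CNW_cz (P i.castSucc)‖ ^ 2 ≤ ((n : ℝ) + 2) ^ 2 :=
        pow_le_pow_left₀ (norm_nonneg _) h4 2
      rw [Complex.sq_norm, Complex.normSq_apply] at h8
      simp only [CNW_cz, Complex.sub_re, Complex.sub_im] at h8
      have h9 : ((((P i.succ).1 - (P i.castSucc).1) ^ 2 + ((P i.succ).2 - (P i.castSucc).2) ^ 2 : ℤ) : ℝ) ≤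
          (((n : ℤ) + 2) ^ 2 : ℤ) := by
        push_cast
        nlinarith
      exact_mod_cast h9
  obtain ⟨α, γ, hrot, hnear⟩ := hS P hPath
  -- the rotation
  set A : ℝ := ‖CNW_cz α‖ with hA
  have hA1 : A ≤ (n : ℝ) ^ 2 + 1 := CNW_rot hrot
  have hA2 : (n : ℝ) ^ 2 - 1 ≤ A := by
    apply le_of_sq_le_sq _ (norm_nonneg _)
    rw [CNW_sq]
    have h4 : ((((n : ℤ) ^ 2 - 1) ^ 2 : ℤ) : ℝ) ≤ ((α.1 ^ 2 + α.2 ^ 2 : ℤ) : ℝ) := by exact_mod_cast hrot.1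
    push_cast at h4
    exact h4
  have hApos : 0 < A := by nlinarith
  have hAc : (A : ℂ) ≠ 0 := by exact_mod_cast hApos.ne'
  set a : ℂ := CNW_cz α / A with ha
  have han : ‖a‖ = 1 := by
    rw [ha, norm_div, Complex.norm_real, Real.norm_of_nonneg hApos.le, ← hA]
    exact div_self hApos.ne'
  have ha0 : a ≠ 0 := by
    intro h
    rw [h, norm_zero] at han
    exact zero_ne_one han
  have haα : ‖a - CNW_cz α / (n : ℂ) ^ 2‖ ≤ 1 / (n : ℝ) ^ 2 := by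
    have e : a - CNW_cz α / (n : ℂ) ^ 2 = (CNW_cz α / A) * ((((n : ℝ) ^ 2 - A : ℝ) : ℂ) / (n : ℂ) ^ 2) := by
      rw [ha]
      push_cast
      field_simp
    rw [e, norm_mul, norm_div, norm_div, hnorm, Complex.norm_real, Complex.norm_real,
      Real.norm_of_nonneg hApos.le, ← hA, div_self hApos.ne', one_mul]
    apply div_le_div_of_nonneg_right _ (by positivity)
    rw [Real.norm_eq_abs, abs_le]
    constructor <;> linarith
  refine ⟨a⁻¹, f 0 - a⁻¹ * (CNW_cz γ / (n : ℂ) ^ 2), by rw [norm_inv, han, inv_one], ?_⟩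
  rintro _ ⟨t, ht, rfl⟩
  refine ⟨a * (f t - f 0) + CNW_cz γ / (n : ℂ) ^ 2, ?_, ?_⟩
  · -- the index
    have hfl : ⌊t * n⌋₊ < n + 1 := by
      rw [Nat.floor_lt (by have := ht.1; positivity)]
      push_cast
      nlinarith [ht.2]
    set i : Fin (n + 1) := ⟨⌊t * n⌋₊, hfl⟩ with hi
    have hti : |t - ((i : ℕ) : ℝ) / n| ≤ 1 / n := by
      have h1 := Nat.floor_le (by have := ht.1; positivity : 0 ≤ t * n)
      have h2 := Nat.lt_floor_add_one (t * (n : ℝ))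
      have h3 : t - ((i : ℕ) : ℝ) / n = (t * n - (⌊t * n⌋₊ : ℝ)) / n := by
        rw [hi]
        field_simp
      rw [h3, abs_div, abs_of_pos hn0]
      apply div_le_div_of_nonneg_right _ hn0.le
      rw [abs_le]
      constructor <;> linarith
    have hv : ‖(f t - f 0) - F i‖ ≤ 1 / n := by
      have : (f t - f 0) - F i = f t - f (((i : ℕ) : ℝ) / n) := by simp [hFdef]
      rw [this]
      exact (hlip _ ht _ (hmem i)).trans hti
    have hest := LFC_est m n hm hn a (CNW_cz α) (CNW_cz (P i)) (f t - f 0) (F i) (CNW_cz γ / (n : ℂ) ^ 2)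
      han haα (hFn i) (hPn i) hv
    set W : ℂ := a * (f t - f 0) + CNW_cz γ / (n : ℂ) ^ 2 with hW
    set Z : ℂ := (CNW_cz α / (n : ℂ) ^ 2) * (CNW_cz (P i) / (n : ℂ) ^ 2) + CNW_cz γ / (n : ℂ) ^ 2 with hZ
    have hZn : Z * (((n : ℝ) ^ 4 : ℝ) : ℂ) = CNW_cz α * CNW_cz (P i) + (((n : ℝ) ^ 2 : ℝ) : ℂ) * CNW_cz γ := by
      rw [hZ]
      push_cast
      field_simp
    have hre : Z.re * (n : ℝ) ^ 4 = ((ps1 n α γ (P i) : ℤ) : ℝ) := by
      have h1 := congrArg Complex.re hZn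
      rw [Complex.re_mul_ofReal, Complex.add_re (CNW_cz α * CNW_cz (P i)), ← CNW_mul_re, Complex.re_ofReal_mul] at h1
      rw [h1, ps1]
      simp only [CNW_cz]
      push_cast
      ring
    have him : Z.im * (n : ℝ) ^ 4 = ((ps2 n α γ (P i) : ℤ) : ℝ) := by
      have h1 := congrArg Complex.im hZn
      rw [Complex.im_mul_ofReal, Complex.add_im (CNW_cz α * CNW_cz (P i)), ← CNW_mul_im, Complex.im_ofReal_mul] at h1
      rw [h1, ps2]
      simp only [CNW_cz]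
      push_cast
      ring
    rw [mem_iUnion₂]
    refine ⟨(⌊m * W.re⌋, ⌊m * W.im⌋), ?_, LFC_mem m hm W⟩
    apply hnear i
    constructor
    · apply LFC_near1 m n hm hn1 W.re Z.re _ hre
      refine le_trans ?_ hest
      rw [← Complex.sub_re]
      exact Complex.abs_re_le_norm _
    · apply LFC_near1 m n hm hn1 W.im Z.im _ him
      refine le_trans ?_ hest
      rw [← Complex.sub_im]
      exact Complex.abs_im_le_norm _
  · show a⁻¹ * (a * (f t - f 0) + CNW_cz γ / (n : ℂ) ^ 2) + (f 0 - a⁻¹ * (CNW_cz γ / (n : ℂ) ^ 2)) = f t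
    rw [mul_add, ← mul_assoc, inv_mul_cancel₀ ha0]
    ring

end Pool.Agent.MW
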