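import Mathlib
import Pool.Agent.helper60.MW.SpecC

set_option autoImplicit false

namespace Pool.Agent.MW

open MeasureTheory Set Pool.Agent.helper17.Worm

/-- the windows in one coordinate -/
noncomputable def OFF_J (M w : ℕ) (u s : ℤ) : Finset ℤ :=
  (Finset.Icc ((s - M - w - u) / M) ((s - u) / M)).filter
    (fun j => j * M + u ≤ s ∧ s < j * M + u + M + w)

lemma OFF_mem (M w : ℕ) (hM : 1 ≤ M) (u s j : ℤ) :
    j ∈ OFF_J M w u s ↔ (j * M + u ≤ s ∧ s < j * M + u + M + w) := by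
  unfold OFF_J
  rw [Finset.mem_filter, Finset.mem_Icc]
  refine ⟨fun h => h.2, fun h => ⟨⟨?_, ?_⟩, h⟩⟩
  · have hMz : (0 : ℤ) < (M : ℤ) := by exact_mod_cast hM
    have e1 := Int.emod_add_mul_ediv (s - M - w - u) M
    have e2 := Int.emod_nonneg (s - M - w - u) hMz.ne'
    by_contra hcon
    push Not at hcon
    nlinarith [h.2, mul_le_mul_of_nonneg_right (by omega : j + 1 ≤ (s - M - w - u) / M) hMz.le]
  · have hMz : (0 : ℤ) < (M : ℤ) := by exact_mod_cast hM
    rw [Int.le_ediv_iff_mul_le hMz]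
    linarith [h.1]

lemma OFF_card (M w : ℕ) (hM : 1 ≤ M) (s : ℤ) :
    ∑ u ∈ Finset.Ico (0 : ℤ) M, (OFF_J M w u s).card ≤ M + w := by
  have hMz : (0 : ℤ) < (M : ℤ) := by exact_mod_cast hM
  rw [← Finset.card_sigma]
  have h1 : (Finset.Ioc (s - M - w) s).card = M + w := by
    rw [Int.card_Ioc]
    have : s - (s - M - w) = ((M + w : ℕ) : ℤ) := by push_cast; ring
    rw [this]
    exact Int.toNat_natCast _
  rw [← h1]
  apply Finset.card_le_card_of_injOn (fun x : (_ : ℤ) × ℤ => x.2 * (M : ℤ) + x.1)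
  · intro x hx
    have hx' := Finset.mem_sigma.mp hx
    have h2 := (OFF_mem M w hM _ _ _).mp hx'.2
    rw [Finset.mem_coe, Finset.mem_Ioc]
    constructor
    · show s - M - w < x.2 * M + x.1
      linarith [h2.2]
    · exact h2.1
  · intro x hx y hy hxy
    have hx' := (Finset.mem_sigma.mp hx).1
    have hy' := (Finset.mem_sigma.mp hy).1
    rw [Finset.mem_Ico] at hx' hy'
    have hxy' : x.2 * M + x.1 = y.2 * M + y.1 := hxy
    have h3 : x.2 = y.2 := by
      rcases lt_trichotomy x.2 y.2 with h | h | h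
      · exfalso
        nlinarith [mul_le_mul_of_nonneg_right (by omega : x.2 + 1 ≤ y.2) hMz.le]
      · exact h
      · exfalso
        nlinarith [mul_le_mul_of_nonneg_right (by omega : y.2 + 1 ≤ x.2) hMz.le]
    have h4 : x.1 = y.1 := by
      rw [h3] at hxy'
      linarith
    rcases x with ⟨x1, x2⟩
    rcases y with ⟨y1, y2⟩
    simp only at h3 h4
    subst h3 h4
    rfl

open Classical in
lemma OFF_main (S : Finset (ℤ × ℤ)) (M w : ℕ) (hM : 1 ≤ M) : ∃ u : ℤ × ℤ,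
    M ^ 2 * ∑ s ∈ S, (OFF_J M w u.1 s.1).card * (OFF_J M w u.2 s.2).card ≤ S.card * (M + w) ^ 2 := by
  by_contra hcon
  push Not at hcon
  have h1 : ∑ u ∈ (Finset.Ico (0 : ℤ) M) ×ˢ (Finset.Ico (0 : ℤ) M),
      ∑ s ∈ S, (OFF_J M w u.1 s.1).card * (OFF_J M w u.2 s.2).card ≤ S.card * (M + w) ^ 2 := by
    rw [Finset.sum_comm, ← smul_eq_mul, ← Finset.sum_const]
    apply Finset.sum_le_sum
    intro s _
    rw [Finset.sum_product]
    simp_rw [← Finset.mul_sum]
    rw [← Finset.sum_mul, pow_two]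
    exact Nat.mul_le_mul (OFF_card M w hM s.1) (OFF_card M w hM s.2)
  have hne : ((Finset.Ico (0 : ℤ) M) ×ˢ (Finset.Ico (0 : ℤ) M)).Nonempty := by
    refine ⟨(0, 0), ?_⟩
    have h0 : (0 : ℤ) < (M : ℤ) := by exact_mod_cast hM
    have h00 : (0 : ℤ) ∈ Finset.Ico (0 : ℤ) M := Finset.mem_Ico.mpr ⟨le_refl _, h0⟩
    exact Finset.mem_product.mpr ⟨h00, h00⟩
  have h2 := Finset.sum_lt_sum_of_nonempty hne (fun u _ => hcon u)
  rw [Finset.sum_const, Finset.card_product, Int.card_Ico, smul_eq_mul, ← Finset.mul_sum] at h2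
  have h3 : ((M : ℤ) - 0).toNat = M := by simp
  rw [h3, ← pow_two] at h2
  have h4 : 0 < M ^ 2 := by positivity
  have h5 := lt_of_mul_lt_mul_left h2 (Nat.zero_le _)
  omega

open Classical in
theorem OFF : OFF_stmt := by
  intro S M w hM
  obtain ⟨u, hu⟩ := OFF_main S M w hM
  have hmem : ∀ j s : ℤ × ℤ, Win M w u j s ↔ j ∈ OFF_J M w u.1 s.1 ×ˢ OFF_J M w u.2 s.2 := by
    intro j s
    rw [Finset.mem_product, OFF_mem M w hM, OFF_mem M w hM]
    rfl
  set J : Finset (ℤ × ℤ) := S.biUnion (fun s => OFF_J M w u.1 s.1 ×ˢ OFF_J M w u.2 s.2) with hJ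
  refine ⟨u, J, ?_, ?_, ?_⟩
  · intro j s hs hw
    rw [hJ, Finset.mem_biUnion]
    exact ⟨s, hs, (hmem j s).mp hw⟩
  · intro j hj
    rw [hJ, Finset.mem_biUnion] at hj
    obtain ⟨s, hs, hw⟩ := hj
    exact ⟨s, hs, (hmem j s).mpr hw⟩
  · refine le_trans (Nat.mul_le_mul_left _ ?_) hu
    simp_rw [Finset.card_filter]
    rw [Finset.sum_comm]
    apply Finset.sum_le_sum
    intro s _
    rw [← Finset.card_filter, ← Finset.card_product]
    apply Finset.card_le_card
    intro j hj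
    rw [Finset.mem_filter] at hj
    exact (hmem j s).mp hj.2

end Pool.Agent.MW
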