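import Pool.Agent.helper60.MW.Spec

set_option autoImplicit false

namespace Pool.Agent.MW

open MeasureTheory Set Pool.Agent.helper17.Worm

theorem HCL_nbh (L : ℕ) (x y : ℤ) (W : ℝ) : IsClosed (nbh L x y W) := by
  unfold nbh
  exact isClosed_Icc.reProdIm isClosed_Icc

theorem HCL_fin (L : ℕ) (W R : ℝ) : {s : ℤ × ℤ | ∃ z : ℂ, ‖z‖ ≤ R ∧ z ∈ nbh L s.1 s.2 W}.Finite := by
  have hp : (0 : ℝ) < 2 ^ L := by positivity
  have key : ∀ (x : ℤ) (t : ℝ), |t| ≤ R → (x : ℝ) / 2 ^ L - W ≤ t → t ≤ (x + 1 : ℝ) / 2 ^ L + W →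
      x ∈ Icc (⌊-(R + W) * 2 ^ L - 1⌋) (⌈(R + W) * 2 ^ L⌉) := by
    intro x t ht h1 h2
    rw [abs_le] at ht
    constructor
    · have h3 : -(R + W) * 2 ^ L - 1 ≤ x := by
        have h4 : t - W ≤ (x + 1 : ℝ) / 2 ^ L := by linarith
        rw [le_div_iff₀ hp] at h4
        nlinarith
      exact_mod_cast (Int.floor_le _).trans h3
    · have h3 : (x : ℝ) ≤ (R + W) * 2 ^ L := by
        have h4 : (x : ℝ) / 2 ^ L ≤ t + W := by linarith
        rw [div_le_iff₀ hp] at h4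
        nlinarith
      exact_mod_cast h3.trans (Int.le_ceil _)
  refine Set.Finite.subset ((Set.finite_Icc (⌊-(R + W) * 2 ^ L - 1⌋) (⌈(R + W) * 2 ^ L⌉)).prod
    (Set.finite_Icc (⌊-(R + W) * 2 ^ L - 1⌋) (⌈(R + W) * 2 ^ L⌉))) ?_
  rintro ⟨x, y⟩ ⟨z, hz, h1, h2⟩
  exact ⟨key x z.re ((Complex.abs_re_le_norm z).trans hz) h1.1 h1.2,
    key y z.im ((Complex.abs_im_le_norm z).trans hz) h2.1 h2.2⟩

theorem HCL : HCL_stmt := by
  classical
  intro D L κ W K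
  rw [← isOpen_compl_iff, isOpen_iff_mem_nhds]
  intro z hz
  -- the finitely many squares near `z`
  have hfin := HCL_fin L W (‖z‖ + 1)
  let U : Set ℂ := Metric.ball z 1 ∩ ⋂ s ∈ hfin.toFinset.filter (fun s => z ∉ nbh L s.1 s.2 W),
    (nbh L s.1 s.2 W)ᶜ
  have hU : U ∈ nhds z := by
    refine Filter.inter_mem (Metric.ball_mem_nhds z one_pos) ?_
    rw [Filter.biInter_finset_mem]
    intro s hs
    exact (HCL_nbh L s.1 s.2 W).isOpen_compl.mem_nhds (Finset.mem_filter.1 hs).2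
  refine Filter.mem_of_superset hU ?_
  rintro w ⟨hw1, hw2⟩ ⟨S, hS, hS'⟩
  apply hz
  refine ⟨S, hS, fun s hs => ⟨(hS' s hs).1, ?_⟩⟩
  by_contra hno
  have hw3 : ‖w‖ ≤ ‖z‖ + 1 := by
    have h1 : ‖w - z‖ < 1 := by
      rw [← dist_eq_norm]
      exact hw1
    have h2 : ‖w‖ ≤ ‖w - z‖ + ‖z‖ := by
      have := norm_add_le (w - z) z
      rwa [sub_add_cancel] at this
    linarith
  have hmem : s ∈ hfin.toFinset.filter (fun s => z ∉ nbh L s.1 s.2 W) := by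
    rw [Finset.mem_filter, Set.Finite.mem_toFinset]
    exact ⟨⟨w, hw3, (hS' s hs).2⟩, hno⟩
  have := Set.mem_iInter₂.1 hw2 s hmem
  exact this (hS' s hs).2

end Pool.Agent.MW
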