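import Pool.Agent.helper60.MW.Spec

set_option autoImplicit false

namespace Pool.Agent.MW

open MeasureTheory Set Pool.Agent.helper17.Worm

theorem MAX_bound (F : ℝ → ℂ) (ℓ a' : ℝ) (hF : LipschitzWith 1 F) (hℓ1 : ℓ ≤ 1)
    (ha : 0 < a') (N : Finset ℂ) (h1 : ∀ n ∈ N, n ∈ F '' Icc 0 ℓ)
    (h2 : ∀ n ∈ N, ∀ n' ∈ N, n ≠ n' → a' ≤ ‖n - n'‖) : N.card ≤ ⌊1 / a'⌋₊ + 1 := by
  classical
  have hx : ∀ n : ℂ, ∃ t : ℝ, n ∈ N → t ∈ Icc 0 ℓ ∧ F t = n := by
    intro n
    by_cases hn : n ∈ N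
    · obtain ⟨t, ht, ht'⟩ := h1 n hn
      exact ⟨t, fun _ => ⟨ht, ht'⟩⟩
    · exact ⟨0, fun h => absurd h hn⟩
  choose t ht using hx
  have hmap : ∀ n ∈ N, ⌊t n / a'⌋₊ ∈ Finset.range (⌊1 / a'⌋₊ + 1) := by
    intro n hn
    rw [Finset.mem_range, Nat.lt_succ_iff]
    refine Nat.floor_le_floor ?_
    have := (ht n hn).1.2
    gcongr
    linarith
  have hinj : Set.InjOn (fun n => ⌊t n / a'⌋₊) (N : Set ℂ) := by
    intro n hn n' hn' h
    by_contra hne
    have h3 := h2 n hn n' hn' hne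
    have h4 : ‖n - n'‖ ≤ |t n - t n'| := by
      rw [← (ht n hn).2, ← (ht n' hn').2]
      have := hF.dist_le_mul (t n) (t n')
      rw [NNReal.coe_one, one_mul, dist_eq_norm, Real.dist_eq] at this
      rw [(ht n hn).2, (ht n' hn').2] at this ⊢
      exact this
    have h5 : |t n / a' - t n' / a'| < 1 := by
      have e1 := Nat.floor_le (div_nonneg (ht n hn).1.1 ha.le)
      have e2 := Nat.lt_floor_add_one (t n / a')
      have e3 := Nat.floor_le (div_nonneg (ht n' hn').1.1 ha.le)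
      have e4 := Nat.lt_floor_add_one (t n' / a')
      have e5 : ((⌊t n / a'⌋₊ : ℕ) : ℝ) = ((⌊t n' / a'⌋₊ : ℕ) : ℝ) := by
        exact_mod_cast h
      rw [abs_lt]
      constructor <;> linarith
    rw [← sub_div, abs_div, abs_of_pos ha, div_lt_one ha] at h5
    linarith
  have h6 := Finset.card_le_card_of_injOn _ hmap hinj
  rwa [Finset.card_range] at h6

theorem MAX : MAX_stmt := by
  classical
  intro F ℓ a' hF hℓ0 hℓ1 ha
  let S : Set ℕ := {k | ∃ N : Finset ℂ, (∀ n ∈ N, n ∈ F '' Icc 0 ℓ) ∧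
    (∀ n ∈ N, ∀ n' ∈ N, n ≠ n' → a' ≤ ‖n - n'‖) ∧ N.card = k}
  have hS0 : S.Nonempty := ⟨0, ∅, by simp, by simp, rfl⟩
  have hSb : BddAbove S := by
    refine ⟨⌊1 / a'⌋₊ + 1, ?_⟩
    rintro k ⟨N, h1, h2, rfl⟩
    exact MAX_bound F ℓ a' hF hℓ1 ha N h1 h2
  obtain ⟨N, h1, h2, h3⟩ := Nat.sSup_mem hS0 hSb
  have hcov : ∀ x ∈ F '' Icc 0 ℓ, ∃ n ∈ N, ‖n - x‖ < a' := by
    intro x hx
    by_contra hno
    push Not at hno
    have hxN : x ∉ N := fun h => by
      have := hno x h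
      rw [sub_self, norm_zero] at this
      linarith
    have hmem : N.card + 1 ∈ S := by
      refine ⟨insert x N, ?_, ?_, ?_⟩
      · intro n hn
        rcases Finset.mem_insert.1 hn with rfl | hn
        · exact hx
        · exact h1 n hn
      · intro n hn n' hn' hne
        rcases Finset.mem_insert.1 hn with e | hn2
        · rcases Finset.mem_insert.1 hn' with e' | hn2'
          · exact absurd (e.trans e'.symm) hne
          · rw [norm_sub_rev, e]
            exact hno n' hn2'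
        · rcases Finset.mem_insert.1 hn' with e' | hn2'
          · rw [e']
            exact hno n hn2
          · exact h2 n hn2 n' hn2' hne
      · rw [Finset.card_insert_of_notMem hxN]
    have h4 := le_csSup hSb hmem
    rw [← h3] at h4
    omega
  refine ⟨N, ?_, h1, h2, ?_, hcov⟩
  · obtain ⟨n, hn, -⟩ := hcov (F 0) ⟨0, ⟨le_rfl, hℓ0⟩, rfl⟩
    exact ⟨n, hn⟩
  · have h5 := MAX_bound F ℓ a' hF hℓ1 ha N h1 h2
    have h6 : (N.card : ℝ) ≤ (⌊1 / a'⌋₊ : ℝ) + 1 := by exact_mod_cast h5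
    have h7 := Nat.floor_le (one_div_pos.2 ha).le
    linarith

end Pool.Agent.MW
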