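import Pool.Agent.helper60.MW.SpecB

set_option autoImplicit false

namespace Pool.Agent.MW

open MeasureTheory Set Pool.Agent.helper17.Worm
open scoped Pointwise

/-- a dilated copy of `Z` is a worm cover -/
theorem MUL_cover (Z : Set ℂ) (hZ : MeasurableSet Z)
    (h : ∀ (q : ℝ) (f : ℝ → ℂ), 0 < q → q < 1 →
    (∀ x ∈ Icc (0 : ℝ) 1, ∀ y ∈ Icc (0 : ℝ) 1, ‖f x - f y‖ ≤ q * |x - y|) →
    ∃ g : ℝ × ℂ, ∀ t ∈ Icc (0 : ℝ) 1, mv g (f t) ∈ Z) (r : ℝ) (hr : 1 < r) :
    IsWormCover ((fun z : ℂ => r • z) '' Z) := by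
  have hr0 : (0 : ℝ) < r := by linarith
  constructor
  · refine MeasurableSet.nullMeasurableSet ?_
    have e : (fun z : ℂ => r • z) '' Z = (fun z : ℂ => r⁻¹ • z) ⁻¹' Z := by
      ext z
      constructor
      · rintro ⟨w, hw, rfl⟩
        change r⁻¹ • (r • w) ∈ Z
        rwa [smul_smul, inv_mul_cancel₀ hr0.ne', one_smul]
      · intro hz
        refine ⟨r⁻¹ • z, hz, ?_⟩
        change r • (r⁻¹ • z) = z
        rw [smul_smul, mul_inv_cancel₀ hr0.ne', one_smul]
    rw [e]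
    exact hZ.preimage (measurable_const_smul r⁻¹)
  · rintro w ⟨f, hf, rfl⟩
    obtain ⟨g, hg⟩ := h r⁻¹ (fun t => (r⁻¹ : ℝ) • f t) (inv_pos.2 hr0) (inv_lt_one_of_one_lt₀ hr) (by
      intro x hx y hy
      rw [← smul_sub, norm_smul, Real.norm_of_nonneg (inv_pos.2 hr0).le]
      have h1 := hf.dist_le_mul x hx y hy
      rw [NNReal.coe_one, one_mul, dist_eq_norm, Real.dist_eq] at h1
      exact mul_le_mul_of_nonneg_left h1 (inv_pos.2 hr0).le)
    -- `f t = r • mv⁻¹ (mv (f t / r))`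
    refine ⟨Complex.exp (-(Complex.I * g.1)), -(Complex.exp (-(Complex.I * g.1)) * (r • g.2)), ?_, ?_⟩
    · rw [show -(Complex.I * (g.1 : ℂ)) = ((-g.1 : ℝ) : ℂ) * Complex.I by push_cast; ring]
      exact Complex.norm_exp_ofReal_mul_I _
    · rintro _ ⟨t, ht, rfl⟩
      refine ⟨r • mv g (r⁻¹ • f t), ⟨_, hg t ht, rfl⟩, ?_⟩
      have hmv : ∀ z : ℂ, mv g z = Complex.exp (Complex.I * g.1) * z + g.2 := fun z => rfl
      change Complex.exp (-(Complex.I * g.1)) * (r • mv g (r⁻¹ • f t)) +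
        -(Complex.exp (-(Complex.I * g.1)) * (r • g.2)) = f t
      rw [hmv, Complex.exp_neg]
      have hne := Complex.exp_ne_zero (Complex.I * g.1)
      have hrc : (r : ℂ) ≠ 0 := by exact_mod_cast hr0.ne'
      simp only [Complex.real_smul, Complex.ofReal_inv]
      field_simp
      ring

theorem MUL : MUL_stmt := by
  intro Z hZ h
  have hmu : ∀ r : ℝ, 1 < r → mu ≤ ENNReal.ofReal (r ^ 2) * volume Z := by
    intro r hr
    have h1 := MUL_cover Z hZ h r hr
    refine sInf_le ⟨_, h1, ?_⟩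
    have e : (fun z : ℂ => r • z) '' Z = r • Z := rfl
    rw [e, Measure.addHaar_smul]
    rw [Complex.finrank_real_complex, abs_of_nonneg (by positivity)]
  by_cases ht : volume Z = ⊤
  · rw [ht]
    exact le_top
  have hlim : Filter.Tendsto (fun n : ℕ => ENNReal.ofReal ((1 + 1 / ((n : ℝ) + 1)) ^ 2) * volume Z)
      Filter.atTop (nhds (ENNReal.ofReal ((1 + 0) ^ 2) * volume Z)) := by
    refine ENNReal.Tendsto.mul_const ?_ (Or.inr ht)
    refine ENNReal.tendsto_ofReal ?_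
    exact (tendsto_const_nhds.add tendsto_one_div_add_atTop_nhds_zero_nat).pow 2
  rw [add_zero, one_pow, ENNReal.ofReal_one, one_mul] at hlim
  refine ge_of_tendsto' hlim fun n => hmu _ ?_
  have : (0 : ℝ) < 1 / ((n : ℝ) + 1) := by positivity
  linarith

end Pool.Agent.MW
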