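import Pool.Agent.helper60.MW.SpecB

set_option autoImplicit false

namespace Pool.Agent.MW

open MeasureTheory Set Pool.Agent.helper17.Worm

theorem MUX_disc : IsWormCover (Metric.closedBall (0 : ℂ) (1 / 2)) := by
  refine ⟨Metric.isClosed_closedBall.measurableSet.nullMeasurableSet, ?_⟩
  rintro w ⟨f, hf, rfl⟩
  refine ⟨1, f (1 / 2), norm_one, ?_⟩
  rintro _ ⟨t, ht, rfl⟩
  refine ⟨f t - f (1 / 2), ?_, by simp⟩
  rw [mem_closedBall_zero_iff, ← dist_eq_norm]
  have h1 := hf.dist_le_mul t ht (1 / 2) ⟨by norm_num, by norm_num⟩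
  rw [NNReal.coe_one, one_mul] at h1
  refine h1.trans ?_
  rw [Real.dist_eq, abs_le]
  constructor <;> linarith [ht.1, ht.2]

theorem MUX_mu : mu ≤ ENNReal.ofReal (4 / 5) := by
  refine (sInf_le ⟨_, MUX_disc, rfl⟩ : mu ≤ _).trans ?_
  rw [Complex.volume_closedBall]
  rw [← ENNReal.ofReal_coe_nnreal, ← ENNReal.ofReal_pow (by norm_num), ← ENNReal.ofReal_mul (by norm_num)]
  refine ENNReal.ofReal_le_ofReal ?_
  have := Real.pi_lt_d2
  rw [NNReal.coe_real_pi]
  norm_num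
  linarith

theorem MUX (hWCX : WCX_stmt) : MUX_stmt := by
  have hmu := MUX_mu
  have htop : mu ≠ ⊤ := ne_top_of_le_ne_top ENNReal.ofReal_ne_top hmu
  have hM : mu.toReal ≤ 4 / 5 := ENNReal.toReal_le_of_le_ofReal (by norm_num) hmu
  have hM0 : 0 ≤ mu.toReal := ENNReal.toReal_nonneg
  have hX : ∀ n : ℕ, ∃ U : Set ℂ, IsOpen U ∧ CovX U ∧
      volume U ≤ ENNReal.ofReal (mu.toReal + 1 / ((n : ℝ) + 5)) := by
    intro n
    have hpos : (0 : ℝ) < 1 / ((n : ℝ) + 5) := by positivity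
    have h1 : mu < ENNReal.ofReal (mu.toReal + 1 / ((n : ℝ) + 5)) := by
      rw [ENNReal.lt_ofReal_iff_toReal_lt htop]
      linarith
    obtain ⟨A, ⟨Y, hY, rfl⟩, hA⟩ := sInf_lt_iff.1 h1
    obtain ⟨U, hU1, hU2, hU3⟩ := Y.exists_isOpen_lt_of_lt _ hA
    exact ⟨U, hU2, hWCX Y U hY hU1, hU3.le⟩
  choose X hX1 hX2 hX3 using hX
  refine ⟨X, fun n => mu.toReal + 1 / ((n : ℝ) + 5), mu.toReal, hM0, by linarith,
    ENNReal.ofReal_toReal htop, hX1, hX2, ?_, ?_, hX3, ?_⟩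
  · intro n
    refine (hX3 n).trans ?_
    have h2 : (1 : ℝ) / ((n : ℝ) + 5) ≤ 1 / 5 := by
      apply one_div_le_one_div_of_le (by norm_num)
      linarith [(Nat.cast_nonneg n : (0 : ℝ) ≤ n)]
    rw [← ENNReal.ofReal_one]
    exact ENNReal.ofReal_le_ofReal (by linarith)
  · intro n
    positivity
  · have h3 : Filter.Tendsto (fun n : ℕ => (1 : ℝ) / ((n : ℝ) + 5)) Filter.atTop (nhds 0) := by
      have h4 := tendsto_one_div_add_atTop_nhds_zero_nat (𝕜 := ℝ)
      have h5 := h4.comp (Filter.tendsto_add_atTop_nat 4)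
      refine h5.congr fun n => ?_
      simp only [Function.comp_apply]
      push_cast
      ring
    have h6 := (tendsto_const_nhds (x := mu.toReal)).add h3
    rwa [add_zero] at h6

end Pool.Agent.MW
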