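import Pool.Agent.helper60.MW.Spec

set_option autoImplicit false

namespace Pool.Agent.MW

open MeasureTheory Set Pool.Agent.helper17.Worm

theorem NOD (hCIR : CIR_stmt) (hMAX : MAX_stmt) : NOD_stmt := by
  classical
  intro F ℓ R a' K hF hℓ0 hℓ1 ha hK hR hfar
  obtain ⟨N, hN0, hN1, hN2, hN3, hN4⟩ := hMAX F ℓ a' hF hℓ0 hℓ1 ha
  refine ⟨N, hN0, hN1, hN2, hN3, ?_⟩
  intro z hz
  obtain ⟨y, hy, hyz⟩ := hfar z hz
  have hK1 : (1 : ℝ) ≤ K := by exact_mod_cast hK
  have hx : ∀ r : ℕ, ∃ n : ℂ, r ∈ Finset.Icc 1 (2 * K) → n ∈ N ∧ |‖n - z‖ - 3 * a' * r| < a' := by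
    intro r
    by_cases hr : r ∈ Finset.Icc 1 (2 * K)
    · obtain ⟨h1, h2⟩ := Finset.mem_Icc.1 hr
      have h2' : (r : ℝ) ≤ 2 * K := by exact_mod_cast h2
      have h3 : 3 * a' * r ≤ R := by
        have : 3 * a' * r ≤ 3 * a' * (2 * K) := by
          apply mul_le_mul_of_nonneg_left h2'
          positivity
        nlinarith
      obtain ⟨x, hx1, hx2⟩ := hCIR F ℓ R (3 * a' * r) z y hF hz hy hyz (by positivity) h3
      obtain ⟨n, hn1, hn2⟩ := hN4 x hx1
      refine ⟨n, fun _ => ⟨hn1, ?_⟩⟩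
      have h4 : |‖n - z‖ - ‖x - z‖| ≤ ‖(n - z) - (x - z)‖ := abs_norm_sub_norm_le _ _
      rw [hx2, sub_sub_sub_cancel_right] at h4
      exact lt_of_le_of_lt h4 hn2
    · exact ⟨0, fun h => absurd h hr⟩
  choose n hn using hx
  refine ⟨(Finset.Icc 1 (2 * K)).image n, ?_, ?_, ?_⟩
  · intro m hm
    obtain ⟨r, hr, rfl⟩ := Finset.mem_image.1 hm
    exact (hn r hr).1
  · rw [Finset.card_image_of_injOn]
    · simp
    · intro r hr s hs h
      have h1 := (hn r hr).2
      have h2 := (hn s hs).2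
      rw [h] at h1
      rw [abs_lt] at h1 h2
      have h3 : 3 * a' * ((r : ℝ) - s) < 2 * a' := by nlinarith
      have h4 : 3 * a' * ((s : ℝ) - r) < 2 * a' := by nlinarith
      have h5 : (r : ℝ) - s < 1 := by
        by_contra hh
        push Not at hh
        nlinarith
      have h6 : (s : ℝ) - r < 1 := by
        by_contra hh
        push Not at hh
        nlinarith
      have h7 : (r : ℤ) - s < 1 := by exact_mod_cast h5
      have h8 : (s : ℤ) - r < 1 := by exact_mod_cast h6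
      omega
  · intro m hm
    obtain ⟨r, hr, rfl⟩ := Finset.mem_image.1 hm
    have h1 := (hn r hr).2
    rw [abs_lt] at h1
    have h2 : (r : ℝ) ≤ 2 * K := by exact_mod_cast (Finset.mem_Icc.1 hr).2
    have h3 : 3 * a' * r ≤ 3 * a' * (2 * K) := by
      apply mul_le_mul_of_nonneg_left h2
      positivity
    nlinarith

end Pool.Agent.MW
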