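import Pool.Agent.helper60.MW.SpecB

set_option autoImplicit false

namespace Pool.Agent.MW

open MeasureTheory Set Pool.Agent.helper17.Worm

theorem UUX_vol {a b c d : ℝ} (hab : a ≤ b) :
    volume (Icc a b ×ℂ Icc c d) = ENNReal.ofReal ((b - a) * (d - c)) := by
  have h1 : Icc a b ×ℂ Icc c d = Complex.measurableEquivRealProd ⁻¹' (Icc a b ×ˢ Icc c d) := by
    ext z
    simp only [Complex.mem_reProdIm, mem_preimage, mem_prod]
    rfl
  rw [h1, Complex.volume_preserving_equiv_real_prod.measure_preimage_equiv,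
    Measure.volume_eq_prod, Measure.prod_prod, Real.volume_Icc, Real.volume_Icc,
    ENNReal.ofReal_mul (sub_nonneg.2 hab)]

theorem UUX_floor (L : ℕ) (x : ℤ) (t : ℝ) (h1 : (x : ℝ) / 2 ^ L ≤ t)
    (h2 : t < (x : ℝ) / 2 ^ L + 1 / 2 ^ L) : ⌊t * 2 ^ L⌋ = x := by
  have hp : (0 : ℝ) < 2 ^ L := by positivity
  rw [Int.floor_eq_iff]
  constructor
  · rwa [div_le_iff₀ hp] at h1
  · rw [← add_div, lt_div_iff₀ hp] at h2
    exact h2

theorem UUX_disj (L : ℕ) : Pairwise (fun s t : ℤ × ℤ => Disjoint (lsq L s.1 s.2) (lsq L t.1 t.2)) := by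
  intro s t hst
  rw [Set.disjoint_left]
  intro z hz hz'
  apply hst
  obtain ⟨⟨h1, h2⟩, h3, h4⟩ := mem_rc.1 hz
  obtain ⟨⟨h5, h6⟩, h7, h8⟩ := mem_rc.1 hz'
  have e1 := UUX_floor L s.1 z.re h1 h2
  have e2 := UUX_floor L t.1 z.re h5 h6
  have e3 := UUX_floor L s.2 z.im h3 h4
  have e4 := UUX_floor L t.2 z.im h7 h8
  exact Prod.ext (e1.symm.trans e2) (e3.symm.trans e4)

theorem UUX : UUX_stmt := by
  classical
  intro X hX L κ W hκ hκ' hW
  have hp : (0 : ℝ) < 2 ^ L := by positivity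
  have h4 : (4 : ℝ) ^ L = 2 ^ L * 2 ^ L := by
    rw [← mul_pow]
    norm_num
  have h14 : 0 < 1 - 4 * κ := by linarith
  set c : ℝ := (1 + 2 * W * 2 ^ L) ^ 2 - (1 - 4 * κ) with hc
  have hc0 : 0 ≤ c := by
    have : 0 ≤ 2 * W * 2 ^ L := by positivity
    nlinarith
  have hsq : ∀ s : ℤ × ℤ, volume (lsq L s.1 s.2) = ENNReal.ofReal (1 / 4 ^ L) := by
    intro s
    unfold lsq
    rw [volume_rc (by positivity) (by positivity), h4, div_mul_div_comm, one_mul]
  have hlm : ∀ s : ℤ × ℤ, MeasurableSet (lsq L s.1 s.2) := fun s => measurableSet_rc _ _ _ _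
  have hfin : ∀ s : ℤ × ℤ, volume (X ∩ lsq L s.1 s.2) ≠ ⊤ := fun s =>
    ne_top_of_le_ne_top (by rw [hsq s]; exact ENNReal.ofReal_ne_top) (measure_mono inter_subset_right)
  -- one square
  have hone : ∀ s : ℤ × ℤ, 1 - 4 * κ ≤ den X L s.1 s.2 →
      volume (nbh L s.1 s.2 W \ X) ≤ ENNReal.ofReal (c / (1 - 4 * κ)) * volume (X ∩ lsq L s.1 s.2) := by
    intro s hs
    unfold den at hs
    have hv : (1 - 4 * κ) / 4 ^ L ≤ volume.real (X ∩ lsq L s.1 s.2) := by
      rw [div_le_iff₀ (by positivity)]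
      exact hs
    have hsub : X ∩ lsq L s.1 s.2 ⊆ nbh L s.1 s.2 W := by
      rintro z ⟨-, hz⟩
      obtain ⟨⟨h1, h2⟩, h3, h4⟩ := mem_rc.1 hz
      refine ⟨⟨by linarith, ?_⟩, ⟨by linarith, ?_⟩⟩
      · rw [← add_div] at h2
        linarith
      · rw [← add_div] at h4
        linarith
    have hm : volume (nbh L s.1 s.2 W \ X) ≤ volume (nbh L s.1 s.2 W \ (X ∩ lsq L s.1 s.2)) :=
      measure_mono (sdiff_subset_sdiff_right inter_subset_left)
    rw [measure_sdiff hsub (hX.inter (hlm s)).nullMeasurableSet (hfin s)] at hm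
    refine hm.trans ?_
    have hn : volume (nbh L s.1 s.2 W) = ENNReal.ofReal ((1 + 2 * W * 2 ^ L) ^ 2 / 4 ^ L) := by
      unfold nbh
      rw [UUX_vol (by
        have : (s.1 : ℝ) / 2 ^ L ≤ ((s.1 : ℝ) + 1) / 2 ^ L := by gcongr; linarith
        linarith), h4]
      congr 1
      field_simp
      ring
    have hr : volume (X ∩ lsq L s.1 s.2) = ENNReal.ofReal (volume.real (X ∩ lsq L s.1 s.2)) :=
      (ENNReal.ofReal_toReal (hfin s)).symm
    rw [hn, hr, ← ENNReal.ofReal_sub _ measureReal_nonneg, ← ENNReal.ofReal_mul (by positivity)]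
    refine ENNReal.ofReal_le_ofReal ?_
    have h5 : c / (1 - 4 * κ) * ((1 - 4 * κ) / 4 ^ L) ≤
        c / (1 - 4 * κ) * volume.real (X ∩ lsq L s.1 s.2) :=
      mul_le_mul_of_nonneg_left hv (by positivity)
    have h6 : c / (1 - 4 * κ) * ((1 - 4 * κ) / 4 ^ L) = c / 4 ^ L := by
      field_simp
    rw [h6, hc, sub_div] at h5
    linarith
  have hcov : UU (den X L) L κ W \ X ⊆
      ⋃ s : ℤ × ℤ, (if 1 - 4 * κ ≤ den X L s.1 s.2 then nbh L s.1 s.2 W \ X else ∅) := by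
    rintro z ⟨⟨x, y, hxy, hz⟩, hzX⟩
    refine mem_iUnion.2 ⟨(x, y), ?_⟩
    rw [if_pos hxy]
    exact ⟨hz, hzX⟩
  refine (measure_mono hcov).trans ((measure_iUnion_le _).trans ?_)
  have h7 : ∀ s : ℤ × ℤ, volume (if 1 - 4 * κ ≤ den X L s.1 s.2 then nbh L s.1 s.2 W \ X else ∅) ≤
      ENNReal.ofReal (c / (1 - 4 * κ)) * volume (X ∩ lsq L s.1 s.2) := by
    intro s
    split_ifs with h
    · exact hone s h
    · rw [measure_empty]
      exact bot_le
  refine (ENNReal.tsum_le_tsum h7).trans ?_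
  rw [ENNReal.tsum_mul_left]
  gcongr
  rw [← measure_iUnion (fun s t hst => (UUX_disj L hst).mono inter_subset_right inter_subset_right)
    (fun s => hX.inter (hlm s))]
  exact measure_mono (iUnion_subset fun s => inter_subset_left)

end Pool.Agent.MW
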